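import Pool.Agent.Run7.h798.Tate.Eff

/-!
# MP_395897_nt, Q1: the integral refinement of the Fontaine–Mazur conjecture and singular cubic hypersurfaces

`D` is the `l`-adic cohomology of the schemes over number fields with the action of the Galois groups: for a
proper smooth scheme `X` over `K` the representation `H K i X` is `H^i(X̄, E)`, and for a scheme `X` over `ℚ`
the representation `h i j X` is `Gr^W_{i-2j} N_j H_{2j-i}(X̄, E)(-j)`, the part of lowest weight of the classes
supported in dimension at most `j`.
-/

set_option autoImplicit false

open CategoryTheory AlgebraicGeometry Pool.Agent.Y116.UV Pool.Agent.Q193.LT Pool.Agent.Q282.UK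
  Pool.Agent.Q282.UZ Run7.h798.UV Run7.h798.Tate Run7.h798.Tate.Gal Run7.h798.Tate.Eff

namespace Pool.Agent.Results.MP_395897_nt.CubicHypersurfaces

/-- **Theorem.** Let `K` be a number field and `N` a natural number. In the integral refinement of the
Fontaine–Mazur conjecture for `K`, condition 3 can be replaced by: `V` is a subquotient of the restriction to
`Gal(K̄/K)` of `Gr^W_{i-2j} N_j H_{2j-i}(C̄, E)(-j)` for some `i`, some `j ≥ N` and a singular cubic hypersurface
`C : ∑_l z_l f_l(x, y) = 0` over `ℚ`, where every `f_l` is a sum of at most three monomials `x_i y_j`.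

More precisely, for every `i` a representation `V` of `Gal(K̄/K)` (irreducible or not) is a subquotient of
`H^i(X̄, E)` for a proper smooth scheme `X` over `K`, without a Tate twist, if and only if it is a subquotient of
such a representation with the same `i`. -/
theorem result {E : Type} [Field E] (D : Eff.Theory E) (N : ℕ) (K : Type) [Field K] [NumberField K] :
    (D.Integral K ↔ D.IntegralCubic N K) ∧
      ∀ (i : ℕ) (V : GRep E (AbsGal K)), D.Origin K i V ↔ D.Cubic N K i V :=
  ⟨Eff.integral_iff D N K, Eff.origin_iff D N K⟩

end Pool.Agent.Results.MP_395897_nt.CubicHypersurfaces
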