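import Pool.Agent.Run7.h199.ZO.Eff2

/-!
# One percent of the tensor powers decides, up to Tate twists

Let `𝒞` be the category of the semisimple continuous `ℚ̄_l`-representations of `G_F` which are unramified
at almost all places. For each of the three conditions of Q1, taken up to Tate twists, let `𝒢` be the
class of the objects of `𝒞` whose irreducible constituents satisfy it: (1) de Rham at all `v | l`; (2)
for some integer `w` pure of weight `w` at all finite `v` not above `l`, with Frobenius eigenvalues which are
integral up to a common Tate twist; (3) a subquotient of `H^i(X)(j)` for some proper smooth `X` and some `i`,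
`j`. Each of these classes is stable under direct sums, subobjects, tensor products and duals, and
contains the representations with finite image. By Tannaka duality, with an isomorphism
`ℚ̄_l ≅ ℂ`, the category `𝒞` is the category of the representations of a pro-reductive group `Γ`, and `𝒢`
is the class of the representations on which a normal subgroup `N` acts trivially; the largest subobject
of `V` in `𝒢` is `V^N`. The characters which satisfy (1) also satisfy (2) and (3) up to Tate twists (they come
from algebraic Hecke characters), so if the determinant of `V` is de Rham at all `v | l` then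
`det(g) = 1` on `V` for `g` in `N`, for each of the three classes.

The theorem is about arbitrary groups `Γ` and normal subgroups `N`.

**Theorem.** Let `V` be a complex representation of `Γ` of dimension `b ≥ 1` which is irreducible on every
subgroup of finite index, and let `det(g) = 1` on `V` for all `g` in the normal subgroup `N`.
Call `V` *thin* if for all `n ≥ 0` and all representations `W` of `Γ` the vectors of `V^n ⊗ W` which are
fixed by `N` form a space of dimension at most `(b / (2 (n + 1)))^(1/2) b^n dim W`, where `V^n` is the
`n`-th tensor power. So for `n ≥ 5000 b` this is at most one percent, for all `W`.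

1. Exactly one of the following is true: `N` acts on `V` through scalars `c` with `c^b = 1`; or `V` is
   thin.
2. In the first case for each `n` all vectors or only the vector zero of `V^n` are fixed by `N`, and all if
   `b` divides `n`.
3. `N` acts trivially on `V` if and only if there is one `n` such that the share of the fixed vectors in
   `V^n` is larger than `(b / (2 (n + 1)))^(1/2)`, and for some `m` prime to `b` there is a nonzero fixed
   vector in `V^m`.

So let `V` be irreducible on all subgroups of finite index of `G_F`, with de Rham determinant, and take one
of the three conditions up to Tate twists. Then `V^b` is a sum of irreducible representations which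
satisfy it, or for all `n` and `W` the part of `V^n ⊗ W` which is such a sum has dimension at most
`(b / (2 (n + 1)))^(1/2) b^n dim W`. And `V` satisfies it if (and only if) for one `n ≥ 5000 b` one percent of
`V^n`, and for some `m` prime to `b` a nonzero part of `V^m`, is a sum of irreducible representations
which satisfy it.

The proof. Let `g` be in `N` with eigenvalues `l_1, ..., l_b` on `V`. By comparing traces of polynomials in
`g`, the space of the fixed vectors of `g` in `V^n ⊗ W` has dimension at most `dim W` times the largest
number of words of length `n` in `l_1, ..., l_b` with a given product. Let the ratio of `l_i` and `l_j` have order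
larger than `n`. If all letters of a word other than `l_i`, `l_j` are given (and the `k` places of these
two) then the product determines how often `l_i` occurs. So the number of words is at most the sum of
`binom(n, k) (b - 2)^(n - k) binom(k, k / 2)` over `k`, and by the inequality of Cauchy and Schwarz and
`binom(k, k / 2)^2 ≤ 4^k / (k + 1)` this is at most `(b / (2 (n + 1)))^(1/2) b^n`. So if `V` is not thin
then there is an `n` such that all ratios of eigenvalues of elements of `N` have order at most `n`. Then
the traces of the set `N_1` of the multiples of determinant one of elements of `N` take only finitely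
many values. The linear span of `N_1` is an algebra which is normalised by `Γ`, and as `V` is
irreducible the trace form of this algebra is nondegenerate. So `N_1` is finite (Burnside's argument),
and a subgroup `H` of finite index in `Γ` commutes with it. If `V` is irreducible on `H` then the elements
of `N` act as scalars (Schur's lemma). If `N` acts by scalars then `V` is not thin: take the dual of `V^n`
for `W`.
-/

set_option autoImplicit false

open Filter Topology Matrix Run7.h199.ZO

namespace Pool.Agent.Results.MP_395897_nt.OnePercent

/-- **The one percent law.** -/
theorem result {Γ : Type*} [Group Γ] (N : Subgroup Γ) [N.Normal] {b : ℕ} (hb : 0 < b)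
    (ρ : Γ →* Matrix (Fin b) (Fin b) ℂ) (hρ : LieIrr ρ) (hdet : ∀ g ∈ N, (ρ g).det = 1) :
    ((∀ g ∈ N, ∃ c : ℂ, c ^ b = 1 ∧ ρ g = c • 1) ↔ ¬ Thin ρ N) ∧
    ((∀ g ∈ N, ∃ c : ℂ, c ^ b = 1 ∧ ρ g = c • 1) →
      (∀ n, fix ρ N n = ⊤ ∨ fix ρ N n = ⊥) ∧ ∀ n, b ∣ n → fix ρ N n = ⊤) ∧
    (Thin ρ N → ∀ n : ℕ, share ρ N n ≤ Real.sqrt (b / (2 * (n + 1)))) ∧
    ((∀ g ∈ N, ρ g = 1) ↔ (∃ n : ℕ, Real.sqrt (b / (2 * (n + 1))) < share ρ N n) ∧
      ∃ m : ℕ, m.Coprime b ∧ 0 < share ρ N m) := by
  have h1 : ∀ g ∈ N, (ρ g).det ^ 1 = 1 := fun g hg => by rw [pow_one, hdet g hg]
  have key : (∀ g ∈ N, ∃ c : ℂ, c ^ b = 1 ∧ ρ g = c • 1) ↔ ¬ Thin ρ N := by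
    rw [← scalar_iff_thin hb hρ]
    refine ⟨fun h g hg => ?_, fun h g hg => ?_⟩
    · obtain ⟨c, _, hc⟩ := h g hg
      exact ⟨c, hc⟩
    · obtain ⟨c, hc⟩ := h g hg
      refine ⟨c, ?_, hc⟩
      have h2 := hdet g hg
      rwa [hc, Matrix.det_smul, Matrix.det_one, mul_one, Fintype.card_fin] at h2
  refine ⟨key, fun h => ?_, fun h => h.share_le hb, ?_⟩
  · have h2 := (all_or_thin hb hρ h1).resolve_right (key.1 h)
    rw [mul_one] at h2
    exact h2
  · have h2 := trivial_iff_thin' hb hρ h1
    rw [mul_one] at h2
    exact h2

end Pool.Agent.Results.MP_395897_nt.OnePercent
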