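import Pool.Agent.Run7.h547.FM.Trans

/-!
# MP_395897_nt, Q1: the three conditions are not equivalent

For every prime `l` and every number field `F` there is a continuous and irreducible representation
of the absolute Galois group of `F` over `ℚ_l`-bar, of dimension one and unramified at all but
finitely many places, which satisfies the second condition (at all places away from `l` its
Weil-Deligne representations are integral and pure of one weight) but not the first one (at all
places above `l` it is de Rham with non-negative Hodge-Tate weights).

The definitions are in `Pool/Agent/Run7/h547/FM/SpecG.lean` (places away from `l`), in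
`Pool/Agent/Run7/h547/FM/SpecB.lean` (the ring `B_dR`) and in
`Pool/Agent/Run7/h547/FM/SpecL.lean` (places above `l`).
-/

set_option autoImplicit false

namespace Pool.Agent.Results.MP_395897_nt.PureNotDeRham

open H547FM

theorem result (l : ℕ) [Fact l.Prime] (F : Type) [Field F] [NumberField F] :
    ∃ ρ : Rep F l 1, IsContinuous ρ ∧ IsIrreducible ρ ∧ UnramifiedAE ρ ∧ CondTwo ρ ∧
      ¬ CondOne ρ :=
  main l F

end Pool.Agent.Results.MP_395897_nt.PureNotDeRham
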